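import Mathlib
import Pool.Agent.H50.WalshE

set_option autoImplicit false

open MeasureTheory
open scoped ENNReal

namespace Pool.Agent.Results.MP_b4b6e5_an.Unbounded

open Pool.Agent.H50.Walsh

/-- For every `0 < α < 1` and `p = 1/(1+α)`, the dyadic Cesaro means `σ_{2^n}^α` are not uniformly
bounded from the martingale Hardy space `H_p` to `L_p`. -/
theorem result (α : ℝ) (h0 : 0 < α) (h1 : α < 1) (C : NNReal) :
    ∃ (f : ℕ → G → ℝ) (n : ℕ), Martingale f filt P ∧ hardyNorm (1 / (1 + α)) f < ∞ ∧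
      C * hardyNorm (1 / (1 + α)) f < lpNorm (1 / (1 + α)) (cesaroMean α (2 ^ n) f) :=
  main α h0 h1 C

end Pool.Agent.Results.MP_b4b6e5_an.Unbounded
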